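import Mathlib

/-!
Sampling lemma used for the positive-fraction version of Kirchberger's theorem.
-/

namespace Pool.Agent.N850.KB

open Finset

variable {α : Type*} [DecidableEq α]

/-- The number of `m`-subsets of `X` containing `S` and disjoint from `M`. -/
theorem card_super_le (X S M : Finset α) (m : ℕ) :
    #{T ∈ X.powersetCard m | S ⊆ T ∧ Disjoint T M} ≤ (#(X \ (S ∪ M))).choose (m - #S) := by
  rw [← card_powersetCard]
  refine card_le_card_of_injOn (fun T => T \ S) ?_ ?_
  · intro T hT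
    simp only [coe_filter, Set.mem_ofPred_eq, mem_powersetCard] at hT
    obtain ⟨⟨hTX, hTm⟩, hS, hM⟩ := hT
    simp only [mem_coe, mem_powersetCard]
    refine ⟨?_, ?_⟩
    · intro x hx
      rw [mem_sdiff] at hx
      rw [mem_sdiff, mem_union]
      refine ⟨hTX hx.1, ?_⟩
      rintro (h | h)
      · exact hx.2 h
      · exact (Finset.disjoint_left.mp hM) hx.1 h
    · rw [card_sdiff_of_subset hS, hTm]
  · intro T hT T' hT' h
    simp only [coe_filter, Set.mem_ofPred_eq, mem_powersetCard] at hT hT'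
    have h1 : T = (T \ S) ∪ S := by rw [sdiff_union_of_subset hT.2.1]
    have h2 : T' = (T' \ S) ∪ S := by rw [sdiff_union_of_subset hT'.2.1]
    rw [h1, h2]
    simp only at h
    rw [h]

/-- Comparison of binomial coefficients. -/
theorem choose_le_pow_mul (a b r : ℕ) (q : ℝ) (hq0 : 0 ≤ q) (hq1 : q ≤ 1)
    (hab : (a : ℝ) ≤ q * b) : ((a.choose r : ℕ) : ℝ) ≤ q ^ r * (b.choose r : ℕ) := by
  induction r with
  | zero => simp
  | succ r ih =>
    have hab' : a ≤ b := by
      have : (a : ℝ) ≤ b := hab.trans (by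
        have : (0 : ℝ) ≤ b := Nat.cast_nonneg b
        nlinarith)
      exact_mod_cast this
    rcases le_or_gt a r with har | har
    · have : a.choose (r + 1) = 0 := Nat.choose_eq_zero_of_lt (by omega)
      rw [this]
      have : (0 : ℝ) ≤ q ^ (r + 1) * (b.choose (r + 1) : ℕ) := by positivity
      simpa using this
    · have e1 := Nat.choose_succ_right_eq a r
      have e2 := Nat.choose_succ_right_eq b r
      have e1' : ((a.choose (r + 1) : ℕ) : ℝ) * (r + 1) = (a.choose r : ℕ) * ((a : ℝ) - r) := by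
        have := congrArg (Nat.cast : ℕ → ℝ) e1
        push_cast [Nat.cast_sub har.le] at this
        exact this
      have e2' : ((b.choose (r + 1) : ℕ) : ℝ) * (r + 1) = (b.choose r : ℕ) * ((b : ℝ) - r) := by
        have := congrArg (Nat.cast : ℕ → ℝ) e2
        push_cast [Nat.cast_sub (har.le.trans hab')] at this
        exact this
      have hr : (0 : ℝ) < (r : ℝ) + 1 := by positivity
      have hr0 : (0 : ℝ) ≤ (r : ℝ) := by positivity
      have hac : (0 : ℝ) ≤ (a : ℝ) - r := by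
        have : (r : ℝ) ≤ a := by exact_mod_cast har.le
        linarith
      have hstep : (a : ℝ) - r ≤ q * ((b : ℝ) - r) := by nlinarith
      have hB : (0 : ℝ) ≤ q ^ r * (b.choose r : ℕ) := by positivity
      have : ((a.choose (r + 1) : ℕ) : ℝ) * (r + 1) ≤
          (q ^ (r + 1) * (b.choose (r + 1) : ℕ)) * (r + 1) := by
        calc ((a.choose (r + 1) : ℕ) : ℝ) * (r + 1) = (a.choose r : ℕ) * ((a : ℝ) - r) := e1'
          _ ≤ (q ^ r * (b.choose r : ℕ)) * (q * ((b : ℝ) - r)) := by
              apply mul_le_mul ih hstep hac hB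
          _ = q ^ (r + 1) * ((b.choose r : ℕ) * ((b : ℝ) - r)) := by ring
          _ = q ^ (r + 1) * (((b.choose (r + 1) : ℕ) : ℝ) * (r + 1)) := by rw [e2']
          _ = _ := by ring
      exact le_of_mul_le_mul_right this hr

/-- **Sampling lemma.**  If few `s`-subsets are bad, and every `m`-subset without a bad
`s`-subset contains a `k`-subset `K` whose error set `M K` it avoids, then some `k`-subset has
a small error set. -/
theorem sampling (X : Finset α) (s k m : ℕ) (Bad : Finset (Finset α))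
    (hBadX : Bad ⊆ X.powersetCard s) (M : Finset α → Finset α) (small : Finset α → Prop)
    (ε q : ℝ) (hq0 : 0 ≤ q) (hq1 : q ≤ 1)
    (hBad : (#Bad : ℝ) ≤ ε * ((#X).choose s : ℕ))
    (hsm : s ≤ m) (hkm : k ≤ m) (hm : m ≤ #X)
    (hlarge : ∀ K ∈ X.powersetCard k, ¬ small K →
      ((#(X \ (K ∪ M K)) : ℕ) : ℝ) ≤ q * ((#X - k : ℕ) : ℝ))
    (hcomp : ∀ T ∈ X.powersetCard m, (∀ S ∈ Bad, ¬ S ⊆ T) →
      ∃ K ∈ X.powersetCard k, K ⊆ T ∧ Disjoint T (M K))
    (hlt : ε * (m.choose s : ℕ) + q ^ (m - k) * (m.choose k : ℕ) < 1) :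
    ∃ K ∈ X.powersetCard k, small K := by
  classical
  by_contra hcon
  push Not at hcon
  set n := #X with hn
  have hcover : X.powersetCard m ⊆
      (Bad.biUnion fun S => {T ∈ X.powersetCard m | S ⊆ T ∧ Disjoint T (∅ : Finset α)}) ∪
      ((X.powersetCard k).biUnion fun K => {T ∈ X.powersetCard m | K ⊆ T ∧ Disjoint T (M K)}) := by
    intro T hT
    rw [mem_union, mem_biUnion, mem_biUnion]
    by_cases h : ∀ S ∈ Bad, ¬ S ⊆ T
    · right
      obtain ⟨K, hK, hKT, hd⟩ := hcomp T hT h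
      exact ⟨K, hK, by rw [mem_filter]; exact ⟨hT, hKT, hd⟩⟩
    · left
      push Not at h
      obtain ⟨S, hS, hST⟩ := h
      exact ⟨S, hS, by rw [mem_filter]; exact ⟨hT, hST, disjoint_empty_right _⟩⟩
  have h1 := card_le_card hcover
  have h2 := h1.trans (card_union_le _ _)
  have h3 := h2.trans (add_le_add card_biUnion_le card_biUnion_le)
  rw [card_powersetCard] at h3
  have h4 : ((n.choose m : ℕ) : ℝ) ≤
      (∑ S ∈ Bad, (#{T ∈ X.powersetCard m | S ⊆ T ∧ Disjoint T (∅ : Finset α)} : ℝ)) +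
      ∑ K ∈ X.powersetCard k, (#{T ∈ X.powersetCard m | K ⊆ T ∧ Disjoint T (M K)} : ℝ) := by
    exact_mod_cast h3
  have hpos : (0 : ℝ) < (n.choose m : ℕ) := by
    exact_mod_cast Nat.choose_pos hm
  -- first sum
  have hS1 : (∑ S ∈ Bad, (#{T ∈ X.powersetCard m | S ⊆ T ∧ Disjoint T (∅ : Finset α)} : ℝ)) ≤
      ε * (m.choose s : ℕ) * (n.choose m : ℕ) := by
    have hle : ∀ S ∈ Bad, (#{T ∈ X.powersetCard m | S ⊆ T ∧ Disjoint T (∅ : Finset α)} : ℝ) ≤
        ((n - s).choose (m - s) : ℕ) := by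
      intro S hS
      have hSX := hBadX hS
      rw [mem_powersetCard] at hSX
      have := card_super_le X S ∅ m
      rw [union_empty, card_sdiff_of_subset hSX.1, hSX.2] at this
      exact_mod_cast this
    calc _ ≤ ∑ S ∈ Bad, (((n - s).choose (m - s) : ℕ) : ℝ) := sum_le_sum hle
      _ = #Bad * ((n - s).choose (m - s) : ℕ) := by rw [sum_const, nsmul_eq_mul]
      _ ≤ (ε * (n.choose s : ℕ)) * ((n - s).choose (m - s) : ℕ) := by gcongr
      _ = ε * ((n.choose s * (n - s).choose (m - s) : ℕ) : ℝ) := by push_cast; ring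
      _ = ε * ((n.choose m * m.choose s : ℕ) : ℝ) := by rw [Nat.choose_mul hsm]
      _ = _ := by push_cast; ring
  have hS2 : (∑ K ∈ X.powersetCard k, (#{T ∈ X.powersetCard m | K ⊆ T ∧ Disjoint T (M K)} : ℝ)) ≤
      q ^ (m - k) * (m.choose k : ℕ) * (n.choose m : ℕ) := by
    have hle : ∀ K ∈ X.powersetCard k,
        (#{T ∈ X.powersetCard m | K ⊆ T ∧ Disjoint T (M K)} : ℝ) ≤
        q ^ (m - k) * ((n - k).choose (m - k) : ℕ) := by
      intro K hK
      have hKX := hK
      rw [mem_powersetCard] at hKX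
      have h5 := card_super_le X K (M K) m
      rw [hKX.2] at h5
      have h6 : (#{T ∈ X.powersetCard m | K ⊆ T ∧ Disjoint T (M K)} : ℝ) ≤
          ((#(X \ (K ∪ M K))).choose (m - k) : ℕ) := by exact_mod_cast h5
      exact h6.trans (choose_le_pow_mul _ _ _ q hq0 hq1 (hlarge K hK (hcon K hK)))
    calc _ ≤ ∑ K ∈ X.powersetCard k, (q ^ (m - k) * ((n - k).choose (m - k) : ℕ) : ℝ) :=
          sum_le_sum hle
      _ = (n.choose k : ℕ) * (q ^ (m - k) * ((n - k).choose (m - k) : ℕ)) := by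
          rw [sum_const, nsmul_eq_mul, card_powersetCard]
      _ = q ^ (m - k) * ((n.choose k * (n - k).choose (m - k) : ℕ) : ℝ) := by push_cast; ring
      _ = q ^ (m - k) * ((n.choose m * m.choose k : ℕ) : ℝ) := by rw [Nat.choose_mul hkm]
      _ = _ := by push_cast; ring
  have : ((n.choose m : ℕ) : ℝ) ≤
      (ε * (m.choose s : ℕ) + q ^ (m - k) * (m.choose k : ℕ)) * (n.choose m : ℕ) := by
    calc _ ≤ _ := h4
      _ ≤ _ := add_le_add hS1 hS2
      _ = _ := by ring
  nlinarith

end Pool.Agent.N850.KB
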