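import Mathlib

/-!
Separating affine functionals for labelled point sets in general position.
-/

namespace Pool.Agent.N850.KB

open Finset

variable {d : ℕ}

/-- Value of the affine function with parameters `v = (u, c)` at `x`. -/
noncomputable def ev (x : EuclideanSpace ℝ (Fin d)) :
    (EuclideanSpace ℝ (Fin d) × ℝ) →ₗ[ℝ] ℝ where
  toFun v := inner ℝ v.1 x + v.2
  map_add' v w := by
    simp only [Prod.fst_add, Prod.snd_add, inner_add_left]; ring
  map_smul' t v := by
    simp only [Prod.smul_fst, Prod.smul_snd, inner_smul_left, RingHom.id_apply, smul_eq_mul]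
    simp; ring

theorem ev_apply (x : EuclideanSpace ℝ (Fin d)) (v : EuclideanSpace ℝ (Fin d) × ℝ) :
    ev x v = inner ℝ v.1 x + v.2 := rfl

/-- No `d+1` of the points of `X` lie on a common affine hyperplane. -/
def GenPos (X : Finset (EuclideanSpace ℝ (Fin d))) : Prop :=
  ∀ S ⊆ X, #S = d + 1 →
    ¬ ∃ (u : EuclideanSpace ℝ (Fin d)) (c : ℝ), u ≠ 0 ∧ ∀ x ∈ S, inner ℝ u x = c

theorem GenPos.mono {X Y : Finset (EuclideanSpace ℝ (Fin d))} (h : GenPos X) (hY : Y ⊆ X) :
    GenPos Y := fun S hS => h S (hS.trans hY)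

/-- An affine function vanishing at `d+1` points in general position vanishes identically. -/
theorem eq_zero_of_ev_eq_zero {X : Finset (EuclideanSpace ℝ (Fin d))} (h : GenPos X)
    (S : Finset (EuclideanSpace ℝ (Fin d))) (hS : S ⊆ X) (hcard : #S = d + 1)
    (v : EuclideanSpace ℝ (Fin d) × ℝ) (hv : ∀ x ∈ S, ev x v = 0) : v = 0 := by
  have hu : v.1 = 0 := by
    by_contra hu
    refine h S hS hcard ⟨v.1, -v.2, hu, fun x hx => ?_⟩
    have := hv x hx
    rw [ev_apply] at this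
    linarith
  have hne : S.Nonempty := by
    rw [← card_pos, hcard]; omega
  obtain ⟨x, hx⟩ := hne
  have h2 := hv x hx
  rw [ev_apply, hu, inner_zero_left, zero_add] at h2
  exact Prod.ext hu h2

theorem finrank_V : Module.finrank ℝ (EuclideanSpace ℝ (Fin d) × ℝ) = d + 1 := by
  rw [Module.finrank_prod]; simp

/-- A nonzero affine function vanishing on at most `d` given points. -/
theorem exists_ne_zero_vanishing (K : Finset (EuclideanSpace ℝ (Fin d))) (hK : #K ≤ d) :
    ∃ v : EuclideanSpace ℝ (Fin d) × ℝ, v ≠ 0 ∧ ∀ x ∈ K, ev x v = 0 := by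
  let L : (EuclideanSpace ℝ (Fin d) × ℝ) →ₗ[ℝ] (K → ℝ) := LinearMap.pi fun x => ev x.1
  have hlt : Module.finrank ℝ (K → ℝ) < Module.finrank ℝ (EuclideanSpace ℝ (Fin d) × ℝ) := by
    rw [finrank_V]; simp; omega
  have hker : LinearMap.ker L ≠ ⊥ := L.ker_ne_bot_of_finrank_lt hlt
  obtain ⟨v, hv, hv0⟩ := Submodule.exists_mem_ne_zero_of_ne_bot hker
  refine ⟨v, hv0, fun x hx => ?_⟩
  have := congrFun (LinearMap.mem_ker.mp hv) ⟨x, hx⟩
  simpa [L] using this

/-- Kirchberger's theorem in the form needed here (via Helly's theorem). -/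
theorem kirchberger (lab : EuclideanSpace ℝ (Fin d) → ℝ) (T : Finset (EuclideanSpace ℝ (Fin d)))
    (hT : d + 2 ≤ #T)
    (h : ∀ S ⊆ T, #S = d + 2 → ∃ v, ∀ x ∈ S, 0 < lab x * ev x v) :
    ∃ v, ∀ x ∈ T, 0 < lab x * ev x v := by
  classical
  have := Convex.helly_theorem (𝕜 := ℝ) (E := EuclideanSpace ℝ (Fin d) × ℝ)
    (F := fun x : EuclideanSpace ℝ (Fin d) => {v | 0 < lab x * ev x v}) (s := T)
    (by rw [finrank_V]; exact hT)
    (by
      intro x _
      have : {v : EuclideanSpace ℝ (Fin d) × ℝ | 0 < lab x * ev x v} =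
          ((lab x • ev x : (EuclideanSpace ℝ (Fin d) × ℝ) →ₗ[ℝ] ℝ)) ⁻¹' (Set.Ioi 0) := by
        ext v; simp
      rw [this]
      exact (convex_Ioi (0:ℝ)).linear_preimage _)
    (by
      intro I hI hcard
      rw [finrank_V] at hcard
      obtain ⟨v, hv⟩ := h I hI hcard
      exact ⟨v, by simpa using hv⟩)
  obtain ⟨v, hv⟩ := this
  exact ⟨v, by simpa using hv⟩

/-- Normalisation. -/
theorem normalise (lab : EuclideanSpace ℝ (Fin d) → ℝ) (T : Finset (EuclideanSpace ℝ (Fin d)))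
    (h : ∃ v, ∀ x ∈ T, 0 < lab x * ev x v) :
    ∃ v, ∀ x ∈ T, 1 ≤ lab x * ev x v := by
  obtain ⟨v, hv⟩ := h
  rcases T.eq_empty_or_nonempty with rfl | hne
  · exact ⟨0, by simp⟩
  obtain ⟨x0, hx0, hmin⟩ := T.exists_min_image (fun x => lab x * ev x v) hne
  have hpos := hv x0 hx0
  refine ⟨(lab x0 * ev x0 v)⁻¹ • v, fun x hx => ?_⟩
  rw [map_smul, smul_eq_mul]
  have h1 := hmin x hx
  have : lab x * ((lab x0 * ev x0 v)⁻¹ * ev x v) = (lab x * ev x v) / (lab x0 * ev x0 v) := by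
    rw [div_eq_mul_inv]; ring
  rw [this, le_div_iff₀ hpos]
  simpa using h1

/-- Compression: a separable labelled set in general position has `d+1` points determining a
separating affine function. -/
theorem compress (lab : EuclideanSpace ℝ (Fin d) → ℝ) (hlab : ∀ x, lab x ≠ 0)
    (T : Finset (EuclideanSpace ℝ (Fin d)))
    (hG : GenPos T) (hT : d + 1 ≤ #T) (h : ∃ v, ∀ x ∈ T, 1 ≤ lab x * ev x v) :
    ∃ K ⊆ T, #K = d + 1 ∧ ∃ v, (∀ x ∈ K, lab x * ev x v = 1) ∧ ∀ x ∈ T, 1 ≤ lab x * ev x v := by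
  classical
  -- choose a feasible `v` with the largest number of tight points
  let tight : (EuclideanSpace ℝ (Fin d) × ℝ) → Finset (EuclideanSpace ℝ (Fin d)) :=
    fun v => T.filter fun x => lab x * ev x v = 1
  have hex : ∃ k, ∃ v, (∀ x ∈ T, 1 ≤ lab x * ev x v) ∧ #(tight v) = k := by
    obtain ⟨v, hv⟩ := h
    exact ⟨_, v, hv, rfl⟩
  have hbdd : ∀ k, (∃ v, (∀ x ∈ T, 1 ≤ lab x * ev x v) ∧ #(tight v) = k) → k ≤ #T := by
    rintro k ⟨v, _, rfl⟩
    exact card_le_card (filter_subset _ _)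
  obtain ⟨k0, hk0⟩ := hex
  let k := Nat.findGreatest (fun k => ∃ v, (∀ x ∈ T, 1 ≤ lab x * ev x v) ∧ #(tight v) = k) #T
  have hk : ∃ v, (∀ x ∈ T, 1 ≤ lab x * ev x v) ∧ #(tight v) = k :=
    Nat.findGreatest_spec (P := fun k => ∃ v, (∀ x ∈ T, 1 ≤ lab x * ev x v) ∧ #(tight v) = k)
      (hbdd k0 hk0) hk0
  have hmax : ∀ v, (∀ x ∈ T, 1 ≤ lab x * ev x v) → #(tight v) ≤ k := by
    intro v hv
    exact Nat.le_findGreatest (hbdd _ ⟨v, hv, rfl⟩) ⟨v, hv, rfl⟩
  obtain ⟨v, hv, hvk⟩ := hk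
  by_cases hkd : d + 1 ≤ k
  · obtain ⟨K, hK, hKc⟩ := exists_subset_card_eq (hvk ▸ hkd : d + 1 ≤ #(tight v))
    refine ⟨K, hK.trans (filter_subset _ _), hKc, v, fun x hx => ?_, hv⟩
    exact (mem_filter.mp (hK hx)).2
  exfalso
  obtain ⟨h0, h0ne, h0K⟩ := exists_ne_zero_vanishing (tight v) (by omega)
  obtain ⟨S, hST, hSc⟩ := exists_subset_card_eq hT
  have hx0 : ∃ x ∈ S, ev x h0 ≠ 0 := by
    by_contra hcon
    push Not at hcon
    exact h0ne (eq_zero_of_ev_eq_zero hG S hST hSc h0 hcon)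
  obtain ⟨x0, hx0S, hx0⟩ := hx0
  -- sign choice
  obtain ⟨w, hwK, hwneg⟩ : ∃ w : EuclideanSpace ℝ (Fin d) × ℝ,
      (∀ x ∈ tight v, ev x w = 0) ∧ lab x0 * ev x0 w < 0 := by
    have hne : lab x0 * ev x0 h0 ≠ 0 := mul_ne_zero (hlab x0) hx0
    rcases lt_or_gt_of_ne hne with hlt | hgt
    · exact ⟨h0, h0K, hlt⟩
    · refine ⟨-h0, fun x hx => by rw [map_neg, h0K x hx, neg_zero], ?_⟩
      rw [map_neg]; linarith
  let Neg := T.filter fun x => lab x * ev x w < 0
  have hNegne : Neg.Nonempty := ⟨x0, mem_filter.mpr ⟨hST hx0S, hwneg⟩⟩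
  obtain ⟨y, hy, hymin⟩ := Neg.exists_min_image
    (fun x => (lab x * ev x v - 1) / (-(lab x * ev x w))) hNegne
  have hyT : y ∈ T := (mem_filter.mp hy).1
  have hyneg : lab y * ev y w < 0 := (mem_filter.mp hy).2
  set t := (lab y * ev y v - 1) / (-(lab y * ev y w)) with ht
  have ht0 : 0 ≤ t := div_nonneg (by linarith [hv y hyT]) (by linarith)
  have hfeas : ∀ x ∈ T, 1 ≤ lab x * ev x (v + t • w) := by
    intro x hx
    rw [map_add, map_smul, smul_eq_mul]
    have e : lab x * (ev x v + t * ev x w) = lab x * ev x v + t * (lab x * ev x w) := by ring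
    rw [e]
    rcases le_or_gt 0 (lab x * ev x w) with hge | hlt
    · have := mul_nonneg ht0 hge
      linarith [hv x hx]
    · have h1 := hymin x (mem_filter.mpr ⟨hx, hlt⟩)
      have h2 : t ≤ (lab x * ev x v - 1) / (-(lab x * ev x w)) := h1
      rw [le_div_iff₀ (by linarith)] at h2
      linarith
  have hsub : insert y (tight v) ⊆ tight (v + t • w) := by
    intro x hx
    rw [mem_insert] at hx
    rcases hx with rfl | hx
    · refine mem_filter.mpr ⟨hyT, ?_⟩
      rw [map_add, map_smul, smul_eq_mul]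
      have hne : -(lab x * ev x w) ≠ 0 := by linarith
      have : t * (-(lab x * ev x w)) = lab x * ev x v - 1 := by
        rw [ht, div_mul_cancel₀ _ hne]
      linarith
    · have hx1 := mem_filter.mp hx
      refine mem_filter.mpr ⟨hx1.1, ?_⟩
      rw [map_add, map_smul, hwK x hx, smul_zero, add_zero]
      exact hx1.2
  have hynot : y ∉ tight v := by
    intro hcon
    rw [hwK y hcon] at hyneg
    simp at hyneg
  have h1 := card_le_card hsub
  rw [card_insert_of_notMem hynot, hvk] at h1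
  have h2 := hmax _ hfeas
  omega

/-- Interpolation at `d+1` points in general position. -/
theorem interpolate (lab : EuclideanSpace ℝ (Fin d) → ℝ) (T : Finset (EuclideanSpace ℝ (Fin d)))
    (hG : GenPos T) (hT : #T = d + 1) : ∃ v, ∀ x ∈ T, ev x v = lab x := by
  classical
  let L : (EuclideanSpace ℝ (Fin d) × ℝ) →ₗ[ℝ] (T → ℝ) := LinearMap.pi fun x => ev x.1
  have hinj : Function.Injective L := by
    rw [← LinearMap.ker_eq_bot, LinearMap.ker_eq_bot']
    intro v hv
    refine eq_zero_of_ev_eq_zero hG T subset_rfl hT v fun x hx => ?_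
    have := congrFun hv ⟨x, hx⟩
    simpa [L] using this
  have hrank : Module.finrank ℝ (EuclideanSpace ℝ (Fin d) × ℝ) = Module.finrank ℝ (T → ℝ) := by
    rw [finrank_V]; simp [hT]
  have hsurj : Function.Surjective L :=
    (LinearMap.injective_iff_surjective_of_finrank_eq_finrank hrank).mp hinj
  obtain ⟨v, hv⟩ := hsurj fun x => lab x.1
  refine ⟨v, fun x hx => ?_⟩
  have := congrFun hv ⟨x, hx⟩
  simpa [L] using this

end Pool.Agent.N850.KB
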